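import Mathlib
import Pool.Agent.Lib.MFib.Final

/-!
Milnor fibers of central arrangements with two distinct 3-multinets, all multiplicities congruent to `1` modulo `3`,
are not 1-formal.
-/

namespace Pool.Agent.Results.MP_7a61d8_gt.MilnorFibersNotFormal

open MFib

/-- Let `α i` be nonzero linear forms on `ℂ^l` with pairwise distinct kernels, `N` and `N'` two distinct 3-multinets
(with `gcd m = 1`) on the arrangement, all multiplicities `≡ 1 mod 3`. Then the Milnor fiber `F = {∏ α i = 1}` is path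
connected and `π₁(F, p)` is not 1-formal, for every `p`. -/
theorem result {ι : Type} [Fintype ι] {l : ℕ} (α : ι → Module.Dual ℂ (Fin l → ℂ)) (hα : ∀ i, α i ≠ 0)
    (hd : ∀ i j, i ≠ j → LinearMap.ker (α i) ≠ LinearMap.ker (α j)) (N N' : Multinet α)
    (hN : ∀ i, N.m i % 3 = 1) (hN' : ∀ i, N'.m i % 3 = 1) (hne : ¬ Same N N') :
    PathConnectedSpace {z : Fin l → ℂ // ∏ i, α i z = 1} ∧
      ∀ p : {z : Fin l → ℂ // ∏ i, α i z = 1},
        ¬ OneFormal (FundamentalGroup {z : Fin l → ℂ // ∏ i, α i z = 1} p) :=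
  main' hα hd N N' hne hN hN' (fun z => ∏ i, α i z) rfl

end Pool.Agent.Results.MP_7a61d8_gt.MilnorFibersNotFormal
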